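import Pool.Graph.R_pool_sql_team_seeded_63374d34.N415.PQ.SigLie
import Pool.Graph.R_pool_sql_team_seeded_63374d34.N433.PX.FA

/-!
# The product of the local root numbers over a Galois 2-extension `M / F` of number fields

A relative version (over any number field `F`) of parts of project PX of helper922.
-/

set_option autoImplicit false
set_option linter.all false

open IsDedekindDomain NumberField Polynomial
open scoped Classical Pointwise

namespace Pool.Agent.H458.RN

variable {F M : Type} [Field F] [NumberField F] [Field M] [NumberField M] [Algebra F M]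

theorem val_inj {v v' : HeightOneSpectrum (𝓞 M)}
    (h : ∀ x : M, v.valuation M x = v'.valuation M x) : v = v' := by
  apply HeightOneSpectrum.ext
  ext r
  rw [← v.valuation_lt_one_iff_mem (K := M) r, ← v'.valuation_lt_one_iff_mem (K := M) r, h]

variable (F) in
/-- The prime `v` is stable under the Galois group. -/
def Fixed (v : HeightOneSpectrum (𝓞 M)) : Prop :=
  ∀ (σ : M ≃ₐ[F] M) (x : M), v.valuation M (σ x) = v.valuation M x

theorem ex_act (σ : M ≃ₐ[F] M) (v : HeightOneSpectrum (𝓞 M)) :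
    ∃ v' : HeightOneSpectrum (𝓞 M), ∀ x : M, v'.valuation M x = v.valuation M (σ x) := by
  obtain ⟨v', h, -⟩ := Pool.Agent.N415.PQ.sig M (𝓞 M) σ.toRingEquiv v
  exact ⟨v', h⟩

/-- the action of the Galois group on the primes -/
noncomputable def act (σ : M ≃ₐ[F] M) (v : HeightOneSpectrum (𝓞 M)) : HeightOneSpectrum (𝓞 M) :=
  (ex_act σ⁻¹ v).choose

theorem act_spec (σ : M ≃ₐ[F] M) (v : HeightOneSpectrum (𝓞 M)) (x : M) :
    (act σ v).valuation M x = v.valuation M (σ⁻¹ x) := (ex_act σ⁻¹ v).choose_spec x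

theorem act_one (v : HeightOneSpectrum (𝓞 M)) : act (1 : M ≃ₐ[F] M) v = v :=
  val_inj fun x => by rw [act_spec, inv_one, AlgEquiv.one_apply]

theorem act_mul (σ τ : M ≃ₐ[F] M) (v : HeightOneSpectrum (𝓞 M)) :
    act (σ * τ) v = act σ (act τ v) :=
  val_inj fun x => by rw [act_spec, act_spec, act_spec, mul_inv_rev, AlgEquiv.mul_apply]

variable (F) in
/-- The product of the signs `w v` is the product over the primes which are stable under the Galois
group. -/
theorem prod_eq [IsGalois F M] {n : ℕ} (hn : Module.finrank F M = 2 ^ n)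
    (w : HeightOneSpectrum (𝓞 M) → ℤ) (hs : ∀ v, w v = 1 ∨ w v = -1)
    (hf : {v | w v ≠ 1}.Finite)
    (hc : ∀ (σ : M ≃ₐ[F] M) (v v' : HeightOneSpectrum (𝓞 M)),
      (∀ x : M, v'.valuation M x = v.valuation M (σ x)) → w v' = w v) :
    ∏ᶠ v, w v = (-1) ^ ({v | w v = -1 ∧ Fixed F v}.ncard) := by
  have hN : {v | w v = -1} = {v | w v ≠ 1} := by
    ext v
    simp only [Set.mem_setOf_eq]
    rcases hs v with h | h <;> rw [h] <;> decide
  have hfin : {v | w v = -1}.Finite := by rw [hN]; exact hf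
  have hwa : ∀ (σ : M ≃ₐ[F] M) (v : HeightOneSpectrum (𝓞 M)), w (act σ v) = w v := fun σ v =>
    hc σ⁻¹ v (act σ v) (act_spec σ v)
  let N : Type := {v : HeightOneSpectrum (𝓞 M) // w v = -1}
  haveI : Finite N := hfin.to_subtype
  letI ma : MulAction (M ≃ₐ[F] M) N :=
    { smul := fun σ v => ⟨act σ v.1, (hwa σ v.1).trans v.2⟩
      one_smul := fun v => Subtype.ext (act_one v.1)
      mul_smul := fun σ τ v => Subtype.ext (act_mul σ τ v.1) }
  haveI : FiniteDimensional F M := Module.finite_of_finrank_pos (by rw [hn]; positivity)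
  have hG : IsPGroup 2 (M ≃ₐ[F] M) := by
    apply IsPGroup.of_card (n := n)
    rw [← hn]
    exact IsGalois.card_aut_eq_finrank F M
  haveI : Fact (Nat.Prime 2) := ⟨Nat.prime_two⟩
  have hmod := hG.card_modEq_card_fixedPoints (α := N)
  have hfix : Nat.card (MulAction.fixedPoints (M ≃ₐ[F] M) N) =
      {v | w v = -1 ∧ Fixed F v}.ncard := by
    rw [← Nat.card_coe_set_eq]
    refine Nat.card_congr
      { toFun := fun v => ⟨v.1.1, v.1.2, fun σ x => ?_⟩
        invFun := fun v => ⟨⟨v.1, v.2.1⟩, fun σ => ?_⟩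
        left_inv := fun v => rfl
        right_inv := fun v => rfl }
    · have h1 : σ⁻¹ • v.1 = v.1 := v.2 σ⁻¹
      have h2 : act σ⁻¹ v.1.1 = v.1.1 := congrArg Subtype.val h1
      have h3 := act_spec σ⁻¹ v.1.1 x
      rw [h2, inv_inv] at h3
      exact h3.symm
    · refine Subtype.ext (val_inj fun x => ?_)
      exact (act_spec σ v.1 x).trans (v.2.2 σ⁻¹ x)
  have hcard : Nat.card N = {v | w v = -1}.ncard := Nat.card_coe_set_eq _
  rw [hfix, hcard] at hmod
  have hprod : ∏ᶠ v, w v = (-1) ^ ({v | w v = -1}.ncard) := by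
    rw [finprod_eq_prod_of_mulSupport_subset (s := hfin.toFinset) w ?_, Set.ncard_eq_toFinset_card _ hfin,
      Finset.prod_congr rfl (g := fun _ => (-1 : ℤ)) ?_, Finset.prod_const]
    · intro v hv
      exact hfin.mem_toFinset.1 hv
    · intro v hv
      rw [Set.Finite.coe_toFinset, hN]
      exact hv
  rw [hprod]
  rcases Nat.even_or_odd ({v | w v = -1}.ncard) with h | h
  · have h' : Even ({v | w v = -1 ∧ Fixed F v}.ncard) := by
      rw [Nat.even_iff] at h ⊢
      exact Eq.trans hmod.symm h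
    rw [h.neg_one_pow, h'.neg_one_pow]
  · have h' : Odd ({v | w v = -1 ∧ Fixed F v}.ncard) := by
      rw [Nat.odd_iff] at h ⊢
      exact Eq.trans hmod.symm h
    rw [h.neg_one_pow, h'.neg_one_pow]

/-- The primes which are stable under the Galois group and unramified exist only if the group is
cyclic. -/
theorem cyclic_of_fixed [IsGalois F M] {u : HeightOneSpectrum (𝓞 F)} {v : HeightOneSpectrum (𝓞 M)}
    [hl : v.asIdeal.LiesOver u.asIdeal]
    (he : Ideal.ramificationIdx' u.asIdeal v.asIdeal = 1) (hfix : Fixed F v) :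
    IsCyclic (M ≃ₐ[F] M) := by
  haveI hup : u.asIdeal.IsPrime := u.isPrime
  haveI hvp : v.asIdeal.IsPrime := v.isPrime
  haveI hum : u.asIdeal.IsMaximal := u.isMaximal
  haveI hvm : v.asIdeal.IsMaximal := v.isMaximal
  letI : Field (𝓞 F ⧸ u.asIdeal) := Ideal.Quotient.field u.asIdeal
  letI : Field (𝓞 M ⧸ v.asIdeal) := Ideal.Quotient.field v.asIdeal
  haveI : Finite (𝓞 F ⧸ u.asIdeal) := inferInstance
  haveI : Finite (𝓞 M ⧸ v.asIdeal) := inferInstance
  haveI : PerfectField u.asIdeal.ResidueField := inferInstance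
  -- the stabilizer is the whole group
  have hst : MulAction.stabilizer (M ≃ₐ[F] M) v.asIdeal = ⊤ := by
    rw [eq_top_iff]
    intro σ _
    rw [MulAction.mem_stabilizer_iff]
    ext x
    rw [Ideal.mem_pointwise_smul_iff_inv_smul_mem, ← v.valuation_lt_one_iff_mem (K := M),
      ← v.valuation_lt_one_iff_mem (K := M)]
    have h1 := hfix σ⁻¹ (x : M)
    exact ⟨fun h => lt_of_eq_of_lt h1.symm h, fun h => lt_of_eq_of_lt h1 h⟩
  have hc := Ideal.card_stabilizer_eq (G := M ≃ₐ[F] M) u.asIdeal v.asIdeal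
  rw [hst, Ideal.ramificationIdxIn_eq_ramificationIdx u.asIdeal v.asIdeal (M ≃ₐ[F] M),
    Ideal.inertiaDegIn_eq_inertiaDeg u.asIdeal v.asIdeal (M ≃ₐ[F] M),
    ← Ideal.ramificationIdx'_eq_ramificationIdx u.asIdeal v.asIdeal u.ne_bot, he, one_mul,
    Ideal.inertiaDeg_eq_of_isMaximal u.asIdeal v.asIdeal, Subgroup.card_top] at hc
  have hcard : Nat.card (𝓞 M ⧸ v.asIdeal) =
      Nat.card (𝓞 F ⧸ u.asIdeal) ^ Nat.card (M ≃ₐ[F] M) := by
    rw [hc]
    exact Module.natCard_eq_pow_finrank
  have hq : 1 < Nat.card (𝓞 F ⧸ u.asIdeal) := Finite.one_lt_card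
  obtain ⟨σ, hσ⟩ := IsArithFrobAt.exists_of_isInvariant (𝓞 F) (M ≃ₐ[F] M) v.asIdeal
  have hund : v.asIdeal.under (𝓞 F) = u.asIdeal := hl.over.symm
  have h1 : ∀ x : 𝓞 M, Ideal.Quotient.mk v.asIdeal (σ • x) =
      Ideal.Quotient.mk v.asIdeal x ^ Nat.card (𝓞 F ⧸ u.asIdeal) := by
    intro x
    have h2 := hσ x
    rw [hund] at h2
    rw [← map_pow, Ideal.Quotient.eq]
    exact h2
  have h2 : ∀ (j : ℕ) (x : 𝓞 M), Ideal.Quotient.mk v.asIdeal (σ ^ j • x) =
      Ideal.Quotient.mk v.asIdeal x ^ Nat.card (𝓞 F ⧸ u.asIdeal) ^ j := by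
    intro j
    induction j with
    | zero => intro x; simp
    | succ j ih =>
      intro x
      rw [pow_succ', mul_smul, h1, ih, ← pow_mul, pow_succ]
  have hj0 : 0 < orderOf σ := orderOf_pos σ
  have h3 : ∀ x : 𝓞 M ⧸ v.asIdeal, x ^ Nat.card (𝓞 F ⧸ u.asIdeal) ^ orderOf σ = x := by
    intro x
    obtain ⟨y, rfl⟩ := Ideal.Quotient.mk_surjective x
    rw [← h2, pow_orderOf_eq_one, one_smul]
  have h4 := Pool.Agent.N433.PX.card_le_of_pow_eq (Nat.one_lt_pow hj0.ne' hq) h3
  rw [hcard] at h4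
  have h5 : Nat.card (M ≃ₐ[F] M) ≤ orderOf σ := (Nat.pow_le_pow_iff_right hq).1 h4
  exact isCyclic_of_orderOf_eq_card σ (le_antisymm orderOf_le_card h5)

/-- The number of infinite places of a Galois extension of degree `2 ^ n`, `n ≥ 2`, is even. -/
theorem even_infinite [IsGalois F M] {n : ℕ} (hn : Module.finrank F M = 2 ^ n) (h2 : 2 ≤ n) :
    Even (Nat.card (InfinitePlace M)) := by
  rw [Nat.card_eq_fintype_card, InfinitePlace.card_eq_card_isUnramifiedIn F M, hn]
  obtain ⟨m, rfl⟩ : ∃ m, n = m + 2 := ⟨n - 2, by omega⟩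
  have e : 2 ^ (m + 2) / 2 = 2 ^ (m + 1) := by
    rw [pow_succ 2 (m + 1), Nat.mul_div_cancel _ (by norm_num)]
  rw [e]
  exact (Even.mul_left ((Nat.even_pow.2 ⟨even_two, by omega⟩)) _).add
    (Even.mul_left ((Nat.even_pow.2 ⟨even_two, by omega⟩)) _)

/-- Finitely many primes contain a nonzero element. -/
theorem fin_mem {r : 𝓞 M} (hr : r ≠ 0) : {v : HeightOneSpectrum (𝓞 M) | r ∈ v.asIdeal}.Finite := by
  have h := Ideal.finite_factors (R := 𝓞 M) (I := Ideal.span {r}) (by
    rwa [Ne, Ideal.zero_eq_bot, Ideal.span_singleton_eq_bot])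
  refine h.subset fun v hv => ?_
  rw [Set.mem_setOf_eq, Ideal.dvd_span_singleton]
  exact hv

/-- The reduction of a polynomial without multiple roots has no multiple roots modulo almost all
primes. -/
theorem bad_finite {P : (𝓞 M)[X]} (hd : P.natDegree ≠ 0)
    (hs : (P.map (algebraMap (𝓞 M) M)).Separable) :
    {v : HeightOneSpectrum (𝓞 M) | (2 : 𝓞 M) ∈ v.asIdeal ∨
      ¬ (P.map (Ideal.Quotient.mk v.asIdeal)).Separable}.Finite := by
  have hinj : Function.Injective (algebraMap (𝓞 M) M) := FaithfulSMul.algebraMap_injective _ _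
  obtain ⟨A, B, -, -, h⟩ := exists_mul_add_mul_eq_C_resultant P (derivative P)
    (m := P.natDegree) (n := (derivative P).natDegree) le_rfl le_rfl (Or.inl hd)
  have hr0 : P.resultant (derivative P) ≠ 0 := by
    intro h0
    have h1 := resultant_map_map P (derivative P) P.natDegree (derivative P).natDegree
      (algebraMap (𝓞 M) M)
    rw [h0, map_zero] at h1
    have h2 : (P.map (algebraMap (𝓞 M) M)).resultant (derivative (P.map (algebraMap (𝓞 M) M))) ≠ 0 :=
      resultant_ne_zero _ _ hs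
    apply h2
    rw [derivative_map, natDegree_map_eq_of_injective hinj, natDegree_map_eq_of_injective hinj]
    exact h1
  have h2 : (2 : 𝓞 M) ≠ 0 := two_ne_zero
  refine ((fin_mem h2).union (fin_mem hr0)).subset ?_
  rintro v (hv | hv)
  · exact Or.inl hv
  · right
    by_contra hrv
    apply hv
    haveI : v.asIdeal.IsMaximal := v.isMaximal
    letI : Field (𝓞 M ⧸ v.asIdeal) := Ideal.Quotient.field v.asIdeal
    have h3 := congrArg (Polynomial.map (Ideal.Quotient.mk v.asIdeal)) h
    rw [Polynomial.map_add, Polynomial.map_mul, Polynomial.map_mul, map_C, ← derivative_map] at h3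
    have h4 : Ideal.Quotient.mk v.asIdeal (P.resultant (derivative P)) ≠ 0 := by
      rw [Ne, Ideal.Quotient.eq_zero_iff_mem]
      exact hrv
    refine ⟨C (Ideal.Quotient.mk v.asIdeal (P.resultant (derivative P)))⁻¹ *
      A.map (Ideal.Quotient.mk v.asIdeal), C (Ideal.Quotient.mk v.asIdeal
        (P.resultant (derivative P)))⁻¹ * B.map (Ideal.Quotient.mk v.asIdeal), ?_⟩
    rw [mul_assoc, mul_assoc, ← mul_add, mul_comm (A.map _), mul_comm (B.map _), h3, ← C_mul,
      inv_mul_cancel₀ h4, C_1]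

end Pool.Agent.H458.RN
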